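import Mathlib

/-!
The numerical part of the block BIGP: the dyadic blocks of large primes have a summable
contribution.
-/

namespace Pool.Agent.Work.MP_b29d7f_half_h87

open Finset

theorem sum_block (r : ℝ) (h0 : 0 ≤ r) (h1 : r < 1) (K : ℝ) (hK : 0 ≤ K) :
    ∃ C : ℝ, ∀ s : Finset ℕ, ∑ j ∈ s, ((j : ℝ) + 1) * (K * r ^ j) ≤ C := by
  have hr : ‖r‖ < 1 := by rwa [Real.norm_of_nonneg h0]
  have hs1 : Summable (fun j : ℕ => (j : ℝ) ^ 1 * r ^ j) :=
    summable_pow_mul_geometric_of_norm_lt_one 1 hr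
  have hs0 : Summable (fun j : ℕ => r ^ j) := summable_geometric_of_lt_one h0 h1
  have hs : Summable (fun j : ℕ => ((j : ℝ) + 1) * (K * r ^ j)) := by
    have := (hs1.add hs0).mul_left K
    refine this.congr fun j => ?_
    ring
  refine ⟨∑' j : ℕ, ((j : ℝ) + 1) * (K * r ^ j), fun s => hs.sum_le_tsum s fun j _ => ?_⟩
  positivity

/-- **numerical part of BIGP**: `m = max n ⌈2^(j(1+δ))⌉`, `g` is the length of the window with `m`
elements, `gN` the length of the window with `N` elements -/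
theorem block_num (θ δ C₀ : ℝ) (hθ0 : 0 < θ) (hC : 1 ≤ C₀) (hδ : 0 < δ)
    (hθδ : θ * (1 + δ) < 1) :
    ∃ (e : ℕ → ℝ) (C : ℝ), (∀ j, 0 ≤ e j) ∧ (∀ s : Finset ℕ, ∑ j ∈ s, e j ≤ C) ∧
      ∀ (n N m j : ℕ) (g gN : ℝ), 1 ≤ n → n ≤ N → N ≤ 3 * n →
        m = max n ⌈(2 : ℝ) ^ ((j : ℝ) * (1 + δ))⌉₊ → 0 ≤ g → 0 ≤ gN →
        g ≤ C₀ * (m : ℝ) ^ (1 + θ) → (m = n → g ≤ gN) →
        (gN / N) ^ (1 + δ) ≤ (2 : ℝ) ^ (j + 1) →
        ((j : ℝ) + 1) * (g / (m * 2 ^ j) + 2 ^ j / m) ≤ e j := by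
  set η : ℝ := min (δ / (1 + δ)) (1 - θ * (1 + δ)) with hη
  have h1δ : (0 : ℝ) < 1 + δ := by linarith
  have hη0 : 0 < η := lt_min (div_pos hδ h1δ) (by linarith)
  set r : ℝ := (2 : ℝ) ^ (-η) with hr
  have hr0 : 0 < r := Real.rpow_pos_of_pos two_pos _
  have hr1 : r < 1 := Real.rpow_lt_one_of_one_lt_of_neg one_lt_two (by linarith)
  have hrj : ∀ j : ℕ, ∀ x : ℝ, η ≤ x → (2 : ℝ) ^ (-((j : ℝ) * x)) ≤ r ^ j := by
    intro j x hx
    rw [hr, ← Real.rpow_natCast, ← Real.rpow_mul two_pos.le]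
    refine Real.rpow_le_rpow_of_exponent_le one_le_two ?_
    have : (0 : ℝ) ≤ j := Nat.cast_nonneg j
    nlinarith
  set K : ℝ := 7 + 2 * C₀ with hK
  obtain ⟨C, hCs⟩ := sum_block r hr0.le hr1 K (by linarith)
  refine ⟨fun j => ((j : ℝ) + 1) * (K * r ^ j), C, fun j => by positivity, hCs, ?_⟩
  intro n N m j g gN hn hnN hN3 hm hg hgN hgm hmn hkap
  refine mul_le_mul_of_nonneg_left ?_ (by positivity)
  have hj0 : (0 : ℝ) ≤ j := Nat.cast_nonneg j
  set X : ℝ := (2 : ℝ) ^ ((j : ℝ) * (1 + δ)) with hX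
  have hX1 : 1 ≤ X := Real.one_le_rpow one_le_two (by positivity)
  have hX0 : 0 < X := lt_of_lt_of_le one_pos hX1
  have hXm : X ≤ m := by
    refine le_trans (Nat.le_ceil X) ?_
    rw [hm]
    exact_mod_cast le_max_right _ _
  have hm0 : (0 : ℝ) < m := lt_of_lt_of_le hX0 hXm
  have h2j : (2 : ℝ) ^ j = (2 : ℝ) ^ (j : ℝ) := (Real.rpow_natCast _ _).symm
  have h2j0 : (0 : ℝ) < 2 ^ j := by positivity
  -- second term
  have hB : (2 : ℝ) ^ j / m ≤ r ^ j := by
    have h1 : (2 : ℝ) ^ j / m ≤ (2 : ℝ) ^ j / X := by gcongr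
    refine le_trans h1 (le_trans (le_of_eq ?_) (hrj j δ ?_))
    · rw [h2j, hX, ← Real.rpow_sub two_pos]
      congr 1
      ring
    · refine le_trans (min_le_left _ _) ?_
      rw [div_le_iff₀ h1δ]
      nlinarith
  -- first term
  have hA : g / (m * 2 ^ j) ≤ (6 + 2 * C₀) * r ^ j := by
    have hrjn : 0 < r ^ j := by positivity
    rcases le_total n ⌈X⌉₊ with hcase | hcase
    · -- m = ⌈X⌉
      have hmX : (m : ℝ) ≤ 2 * X := by
        rw [hm, max_eq_right hcase]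
        have := Nat.ceil_lt_add_one hX0.le
        linarith
      have h1 : g / (m * 2 ^ j) ≤ C₀ * (m : ℝ) ^ θ / 2 ^ j := by
        rw [div_le_div_iff₀ (by positivity) h2j0]
        have h2 : (m : ℝ) ^ (1 + θ) = m * (m : ℝ) ^ θ := by
          rw [Real.rpow_add hm0, Real.rpow_one]
        rw [h2] at hgm
        calc g * 2 ^ j ≤ (C₀ * (m * (m : ℝ) ^ θ)) * 2 ^ j := by gcongr
          _ = C₀ * (m : ℝ) ^ θ * (m * 2 ^ j) := by ring
      have h3 : (m : ℝ) ^ θ ≤ 2 * X ^ θ := by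
        have hθ1 : θ < 1 := by nlinarith
        calc (m : ℝ) ^ θ ≤ (2 * X) ^ θ := Real.rpow_le_rpow hm0.le hmX hθ0.le
          _ = 2 ^ θ * X ^ θ := Real.mul_rpow two_pos.le hX0.le
          _ ≤ 2 ^ (1 : ℝ) * X ^ θ := by
              gcongr
              exact one_le_two
          _ = 2 * X ^ θ := by rw [Real.rpow_one]
      have h4 : X ^ θ / 2 ^ j ≤ r ^ j := by
        refine le_trans (le_of_eq ?_) (hrj j (1 - θ * (1 + δ)) (min_le_right _ _))
        rw [h2j, hX, ← Real.rpow_mul two_pos.le, ← Real.rpow_sub two_pos]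
        congr 1
        ring
      calc g / (m * 2 ^ j) ≤ C₀ * (m : ℝ) ^ θ / 2 ^ j := h1
        _ ≤ C₀ * (2 * X ^ θ) / 2 ^ j := by gcongr
        _ = 2 * C₀ * (X ^ θ / 2 ^ j) := by ring
        _ ≤ 2 * C₀ * r ^ j := by gcongr
        _ ≤ (6 + 2 * C₀) * r ^ j := by nlinarith
    · -- m = n
      have hmn' : m = n := by rw [hm, max_eq_left hcase]
      have hgle := hmn hmn'
      have hn0 : (0 : ℝ) < n := by exact_mod_cast hn
      have hN0 : (0 : ℝ) < N := by exact_mod_cast (lt_of_lt_of_le hn hnN)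
      have hN3' : (N : ℝ) ≤ 3 * n := by exact_mod_cast hN3
      have hk0 : 0 ≤ gN / N := by positivity
      have h1 : gN / N ≤ 2 * (2 : ℝ) ^ ((j : ℝ) / (1 + δ)) := by
        have h2 : gN / N = ((gN / N) ^ (1 + δ)) ^ (1 / (1 + δ)) := by
          rw [← Real.rpow_mul hk0, mul_one_div_cancel h1δ.ne', Real.rpow_one]
        rw [h2]
        calc ((gN / N) ^ (1 + δ)) ^ (1 / (1 + δ)) ≤ ((2 : ℝ) ^ (j + 1)) ^ (1 / (1 + δ)) :=
              Real.rpow_le_rpow (by positivity) hkap (by positivity)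
          _ = (2 : ℝ) ^ (((j : ℝ) + 1) * (1 / (1 + δ))) := by
              rw [← Real.rpow_natCast, ← Real.rpow_mul two_pos.le]
              push_cast
              rfl
          _ = (2 : ℝ) ^ ((j : ℝ) / (1 + δ)) * (2 : ℝ) ^ (1 / (1 + δ)) := by
              rw [← Real.rpow_add two_pos]
              congr 1
              ring
          _ ≤ (2 : ℝ) ^ ((j : ℝ) / (1 + δ)) * (2 : ℝ) ^ (1 : ℝ) := by
              refine mul_le_mul_of_nonneg_left ?_ (by positivity)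
              refine Real.rpow_le_rpow_of_exponent_le one_le_two ?_
              rw [div_le_one h1δ]
              linarith
          _ = 2 * (2 : ℝ) ^ ((j : ℝ) / (1 + δ)) := by rw [Real.rpow_one]; ring
      have h3 : g / (m * 2 ^ j) ≤ 3 * (gN / N) / 2 ^ j := by
        rw [hmn', div_le_div_iff₀ (by positivity) h2j0]
        have h4 : g ≤ 3 * (gN / N) * n := by
          have h5 : gN ≤ 3 * (gN / N) * n := by
            rw [show 3 * (gN / N) * (n : ℝ) = gN * (3 * n) / N by ring, le_div_iff₀ hN0]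
            gcongr
          linarith
        calc g * 2 ^ j ≤ (3 * (gN / N) * n) * 2 ^ j := by gcongr
          _ = 3 * (gN / N) * (n * 2 ^ j) := by ring
      have h6 : (2 : ℝ) ^ ((j : ℝ) / (1 + δ)) / 2 ^ j ≤ r ^ j := by
        refine le_trans (le_of_eq ?_) (hrj j (δ / (1 + δ)) (min_le_left _ _))
        rw [h2j, ← Real.rpow_sub two_pos]
        congr 1
        field_simp
        ring
      calc g / (m * 2 ^ j) ≤ 3 * (gN / N) / 2 ^ j := h3
        _ ≤ 3 * (2 * (2 : ℝ) ^ ((j : ℝ) / (1 + δ))) / 2 ^ j := by gcongr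
        _ = 6 * ((2 : ℝ) ^ ((j : ℝ) / (1 + δ)) / 2 ^ j) := by ring
        _ ≤ 6 * r ^ j := by gcongr
        _ ≤ (6 + 2 * C₀) * r ^ j := by nlinarith
  calc g / (m * 2 ^ j) + 2 ^ j / m ≤ (6 + 2 * C₀) * r ^ j + r ^ j := add_le_add hA hB
    _ = K * r ^ j := by rw [hK]; ring

end Pool.Agent.Work.MP_b29d7f_half_h87
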