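import Pool.Agent.Work.MP_b29d7f_half.Tools
import Pool.Agent.Work.MP_b29d7f_half_h87.NUM

/-!
Step 6 of the proof of the half exponent theorem: the contribution of the large primes.
-/

namespace Pool.Agent.Work.MP_b29d7f_half_h87

open Finset
open Pool.Agent.Work.MP_b29d7f_half
open Pool.Agent.Work.MP_b29d7f_nt (IsPOrdering HasSimultaneousOrdering PosUpperBanachDensity
  PS vd ld tv PS_nonneg vd_nonneg)

/-- the bound for one prime -/
theorem single_prime (hAVG : Stmt_AVG) (hPAIR : Stmt_PAIR) (hCLS : Stmt_CLS) {S : Set ℤ}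
    {a : ℕ → ℤ} (hO : Ord S a) {p : ℕ} (hp : p.Prime) {n g : ℕ} {W : Finset ℤ} (hn : 2 ≤ n)
    (hnW : n ≤ W.card) (hWS : (W : Set ℤ) ⊆ S) (hWin : InWin W g) :
    2 * PS (vd p) (A a n) ≤ (n : ℝ) ^ 2 * ((if p < 2 * n then 1 / (p : ℝ) else 0) +
      2 * ((p * prs p W - (W.card : ℝ) ^ 2) / (p * (W.card : ℝ) ^ 2)) +
      4 * g / (W.card * (p : ℝ) ^ 2)) := by
  have hp0 : (0 : ℝ) < p := by exact_mod_cast hp.pos
  have hn0 : (0 : ℝ) < n := by exact_mod_cast (by omega : 0 < n)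
  have hm0 : (0 : ℝ) < W.card := by exact_mod_cast (by omega : 0 < W.card)
  set m : ℝ := (W.card : ℝ) with hm
  have hcl1 := hCLS.1 W p hp.one_lt.le
  have hr0 : 0 ≤ (p * prs p W - m ^ 2) / (p * m ^ 2) := by
    apply div_nonneg _ (by positivity)
    rw [← hm] at hcl1
    linarith
  have hif : (0 : ℝ) ≤ (if p < 2 * n then 1 / (p : ℝ) else 0) := by split_ifs <;> positivity
  by_cases h0 : PS (vd p) (A a n) = 0
  · rw [h0, mul_zero]
    positivity
  have hcl2 := hCLS.2 S a hO p hp n W hWS h0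
  have havg := hAVG S a hO p hp n W hn hnW hWS
  have hpair := hPAIR W g p hp hWin
  rw [← hm] at hcl1 hcl2 havg hpair
  -- 2 PS ≤ n² (prs/m² + 4 g/(m p²))
  have h1 : 2 * PS (vd p) (A a n) ≤ (n : ℝ) ^ 2 * (prs p W / m ^ 2 + 4 * g / (m * (p : ℝ) ^ 2)) := by
    have h2 : 2 * PS (vd p) (A a n) * m ^ 2 ≤ (n : ℝ) ^ 2 * (prs p W + 4 * m * g / (p : ℝ) ^ 2) := by
      calc 2 * PS (vd p) (A a n) * m ^ 2 = 2 * (PS (vd p) (A a n) * m ^ 2) := by ring
        _ ≤ 2 * ((n : ℝ) ^ 2 * PS (vd p) W) := by linarith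
        _ = (n : ℝ) ^ 2 * (2 * PS (vd p) W) := by ring
        _ ≤ _ := by gcongr
    have h3 : 2 * PS (vd p) (A a n) ≤
        (n : ℝ) ^ 2 * (prs p W + 4 * m * g / (p : ℝ) ^ 2) / m ^ 2 := by
      rw [le_div_iff₀ (by positivity)]; exact h2
    refine le_trans h3 (le_of_eq ?_)
    field_simp
  have h4 : (prs p W : ℝ) / m ^ 2 = 1 / p + (p * prs p W - m ^ 2) / (p * m ^ 2) := by
    field_simp
    ring
  have h5 : (prs p W : ℝ) / m ^ 2 ≤ (if p < 2 * n then 1 / (p : ℝ) else 0) +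
      2 * ((p * prs p W - m ^ 2) / (p * m ^ 2)) := by
    split_ifs with h
    · rw [h4]; linarith
    · have h6 : (2 : ℝ) * n ≤ p := by
        have := not_lt.mp h
        exact_mod_cast this
      have h7 : 1 / (p : ℝ) ≤ (prs p W : ℝ) / m ^ 2 / 2 := by
        rw [div_div, div_le_div_iff₀ hp0 (by positivity)]
        have hprs : (0 : ℝ) ≤ prs p W := Nat.cast_nonneg _
        nlinarith
      linarith
  calc 2 * PS (vd p) (A a n) ≤ _ := h1
    _ ≤ _ := by gcongr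

/-- the bound for one dyadic block -/
theorem block_bound (hSIEVE : Stmt_SIEVE) (hAVG : Stmt_AVG) (hPAIR : Stmt_PAIR) (hCLS : Stmt_CLS)
    {S : Set ℤ} {a : ℕ → ℤ} (hO : Ord S a) {n g j : ℕ} {W : Finset ℤ} (hn : 2 ≤ n)
    (hnW : n ≤ W.card) (hWS : (W : Set ℤ) ⊆ S) (hWin : InWin W g) (P : Finset ℕ)
    (hP : ∀ p ∈ P, p.Prime ∧ 2 ^ j ≤ p ∧ p < 2 ^ (j + 1)) :
    ∑ p ∈ P, Real.log p * (2 * PS (vd p) (A a n)) ≤
      (n : ℝ) ^ 2 * (∑ p ∈ P, (if p < 2 * n then Real.log p / p else 0) +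
        128 * (((j : ℝ) + 1) * (g / (W.card * 2 ^ j) + 2 ^ j / W.card))) := by
  classical
  have hm0 : (0 : ℝ) < W.card := by exact_mod_cast (by omega : 0 < W.card)
  have h2j : (0 : ℝ) < 2 ^ j := by positivity
  have hlog : ∀ p ∈ P, 0 ≤ Real.log p ∧ Real.log p ≤ (j : ℝ) + 1 := by
    intro p hp
    obtain ⟨hpp, h1, h2⟩ := hP p hp
    have hp0 : (0 : ℝ) < p := by exact_mod_cast hpp.pos
    refine ⟨Real.log_nonneg (by exact_mod_cast hpp.one_lt.le), ?_⟩
    have h3 : (p : ℝ) ≤ 2 ^ (j + 1) := by exact_mod_cast h2.le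
    calc Real.log p ≤ Real.log (2 ^ (j + 1)) := Real.log_le_log hp0 h3
      _ = ((j : ℝ) + 1) * Real.log 2 := by rw [Real.log_pow]; push_cast; ring
      _ ≤ ((j : ℝ) + 1) * 1 := by
          gcongr
          have := Real.log_two_lt_d9
          linarith
      _ = _ := mul_one _
  have hsieve := hSIEVE W g (2 ^ (j + 1)) (Nat.one_le_two_pow) hWin P
    fun p hp => ⟨(hP p hp).1, (hP p hp).2.2.le⟩
  set m : ℝ := (W.card : ℝ) with hm
  have hterm : ∀ p ∈ P, Real.log p * (2 * PS (vd p) (A a n)) ≤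
      (n : ℝ) ^ 2 * ((if p < 2 * n then Real.log p / p else 0) +
        (((j : ℝ) + 1) * 2 / (2 ^ j * m ^ 2) * (p * prs p W - m ^ 2) +
        ((j : ℝ) + 1) * (4 * g / (m * (2 ^ j) ^ 2)))) := by
    intro p hp
    obtain ⟨hpp, h1, h2⟩ := hP p hp
    have hp0 : (0 : ℝ) < p := by exact_mod_cast hpp.pos
    have h2jp : (2 : ℝ) ^ j ≤ p := by exact_mod_cast h1
    obtain ⟨hl0, hl1⟩ := hlog p hp
    have hs := single_prime hAVG hPAIR hCLS hO hpp hn hnW hWS hWin
    rw [← hm] at hs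
    have hcl1 := hCLS.1 W p hpp.one_lt.le
    rw [← hm] at hcl1
    have hd : 0 ≤ (p : ℝ) * prs p W - m ^ 2 := by linarith
    have e1 : Real.log p * (if p < 2 * n then 1 / (p : ℝ) else 0) =
        (if p < 2 * n then Real.log p / p else 0) := by
      split_ifs
      · ring
      · ring
    have e2 : Real.log p * (2 * ((p * prs p W - m ^ 2) / (p * m ^ 2))) ≤
        ((j : ℝ) + 1) * 2 / (2 ^ j * m ^ 2) * (p * prs p W - m ^ 2) := by
      calc Real.log p * (2 * ((p * prs p W - m ^ 2) / (p * m ^ 2)))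
          ≤ ((j : ℝ) + 1) * (2 * ((p * prs p W - m ^ 2) / (2 ^ j * m ^ 2))) := by gcongr
        _ = _ := by ring
    have e3 : Real.log p * (4 * g / (m * (p : ℝ) ^ 2)) ≤
        ((j : ℝ) + 1) * (4 * g / (m * (2 ^ j) ^ 2)) := by
      gcongr
    calc Real.log p * (2 * PS (vd p) (A a n)) ≤ Real.log p * _ :=
          mul_le_mul_of_nonneg_left hs hl0
      _ = (n : ℝ) ^ 2 * (Real.log p * (if p < 2 * n then 1 / (p : ℝ) else 0) +
          (Real.log p * (2 * ((p * prs p W - m ^ 2) / (p * m ^ 2))) +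
          Real.log p * (4 * g / (m * (p : ℝ) ^ 2)))) := by ring
      _ ≤ _ := by rw [e1]; gcongr
  have hcard : (P.card : ℝ) ≤ 2 ^ j := by
    have h1 : P ⊆ Finset.Ico (2 ^ j) (2 ^ (j + 1)) := by
      intro p hp
      rw [mem_Ico]
      exact (hP p hp).2
    have h2 := card_le_card h1
    rw [Nat.card_Ico] at h2
    have h3 : 2 ^ (j + 1) - 2 ^ j = 2 ^ j := by rw [pow_succ]; omega
    rw [h3] at h2
    exact_mod_cast h2
  have hg0 : (0 : ℝ) ≤ g := Nat.cast_nonneg g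
  have hmax : ((max g ((2 ^ (j + 1)) ^ 2) : ℕ) : ℝ) ≤ g + 4 * (2 ^ j) ^ 2 := by
    have h1 : max g ((2 ^ (j + 1)) ^ 2) ≤ g + 4 * (2 ^ j) ^ 2 := by
      rw [max_le_iff]
      constructor
      · exact Nat.le_add_right _ _
      · have h2 : (2 ^ (j + 1)) ^ 2 = 4 * (2 ^ j) ^ 2 := by ring
        omega
    exact_mod_cast h1
  calc ∑ p ∈ P, Real.log p * (2 * PS (vd p) (A a n)) ≤ ∑ p ∈ P, _ := Finset.sum_le_sum hterm
    _ = (n : ℝ) ^ 2 * (∑ p ∈ P, (if p < 2 * n then Real.log p / p else 0) +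
        (((j : ℝ) + 1) * 2 / (2 ^ j * m ^ 2) * ∑ p ∈ P, (p * prs p W - m ^ 2) +
        P.card * (((j : ℝ) + 1) * (4 * g / (m * (2 ^ j) ^ 2))))) := by
        rw [← Finset.mul_sum, Finset.sum_add_distrib, Finset.sum_add_distrib, ← Finset.mul_sum,
          Finset.sum_const, nsmul_eq_mul]
    _ ≤ (n : ℝ) ^ 2 * (∑ p ∈ P, (if p < 2 * n then Real.log p / p else 0) +
        (((j : ℝ) + 1) * 2 / (2 ^ j * m ^ 2) * (16 * (g + 4 * (2 ^ j) ^ 2) * m) +
        2 ^ j * (((j : ℝ) + 1) * (4 * g / (m * (2 ^ j) ^ 2))))) := by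
        gcongr
        refine le_trans hsieve ?_
        gcongr
    _ = (n : ℝ) ^ 2 * (∑ p ∈ P, (if p < 2 * n then Real.log p / p else 0) +
        (((j : ℝ) + 1) * (36 * (g / (m * 2 ^ j)) + 128 * (2 ^ j / m)))) := by
        congr 2
        field_simp
        ring
    _ ≤ _ := by
        have h5 : 0 ≤ (g : ℝ) / (m * 2 ^ j) := by positivity
        have h6 : (0 : ℝ) ≤ (j : ℝ) + 1 := by positivity
        refine mul_le_mul_of_nonneg_left (add_le_add le_rfl ?_) (sq_nonneg _)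
        nlinarith [mul_nonneg h6 h5]

/-- Mertens between `Q` and `2n` -/
theorem mertens_between : ∃ C : ℝ, ∀ (n Q : ℕ), 1 ≤ Q → Q ≤ n → ∀ P : Finset ℕ,
    (∀ p ∈ P, p.Prime ∧ Q < p) →
      ∑ p ∈ P, (if p < 2 * n then Real.log p / (p : ℝ) else 0) ≤
        Real.log n - Real.log Q + C := by
  obtain ⟨C, hC0, hC⟩ := MP_b29d7f_nt.mertens_lower_all
  refine ⟨C + Real.log 2 + Real.log 4, fun n Q hQ hQn P hP => ?_⟩
  classical
  have hup := MP_b29d7f_nt.mertens_upper (2 * n) (by omega)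
  have hlo := hC Q hQ
  have hn0 : (0 : ℝ) < n := by exact_mod_cast (by omega : 0 < n)
  have h1 : ∑ p ∈ P, (if p < 2 * n then Real.log p / (p : ℝ) else 0) +
      ∑ p ∈ Q.primesLE, Real.log p / p ≤ ∑ p ∈ (2 * n).primesLE, Real.log p / p := by
    rw [← Finset.sum_filter, ← Finset.sum_union]
    · refine Finset.sum_le_sum_of_subset_of_nonneg ?_ ?_
      · intro p hp
        rw [mem_union, mem_filter] at hp
        rw [Nat.mem_primesLE]
        rcases hp with ⟨hp1, hp2⟩ | hp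
        · exact ⟨by omega, (hP p hp1).1⟩
        · rw [Nat.mem_primesLE] at hp
          exact ⟨by omega, hp.2⟩
      · intro p hp _
        have : 1 ≤ p := by
          rw [Nat.mem_primesLE] at hp
          exact hp.2.one_lt.le
        have h2 : 0 ≤ Real.log p := Real.log_nonneg (by exact_mod_cast this)
        positivity
    · rw [Finset.disjoint_left]
      intro p hp hp'
      rw [mem_filter] at hp
      rw [Nat.mem_primesLE] at hp'
      have := (hP p hp.1).2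
      omega
  have h2 : Real.log ((2 * n : ℕ) : ℝ) = Real.log 2 + Real.log n := by
    push_cast
    rw [Real.log_mul two_ne_zero hn0.ne']
  rw [h2] at hup
  linarith

theorem bigp (hGBAS : Stmt_GBAS) (hSIEVE : Stmt_SIEVE) (hAVG : Stmt_AVG) (hPAIR : Stmt_PAIR)
    (hCLS : Stmt_CLS) : Stmt_BIGP := by
  classical
  intro S a θ δ' δ hO hθ0 hθ1 hC0 hG hδ hθδ
  obtain ⟨e, C₁, he0, hes, hnum⟩ := block_num θ δ δ' hθ0 hC0 hδ hθδ
  obtain ⟨C₂, hmer⟩ := mertens_between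
  refine ⟨C₂ + 128 * C₁, fun N n Q hn hnN hN3 hQ hQn hkap P hP => ?_⟩
  obtain ⟨hatt, hmin, hmono, hmG⟩ := hGBAS S hO.inf
  -- split into dyadic blocks
  have hfib : ∑ p ∈ P, Real.log p * (2 * PS (vd p) (A a n)) =
      ∑ j ∈ P.image (Nat.log 2), ∑ p ∈ P.filter (fun p => Nat.log 2 p = j),
        Real.log p * (2 * PS (vd p) (A a n)) :=
    (Finset.sum_fiberwise_of_maps_to (fun p hp => mem_image_of_mem _ hp) _).symm
  have hfib2 : ∑ p ∈ P, (if p < 2 * n then Real.log p / (p : ℝ) else 0) =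
      ∑ j ∈ P.image (Nat.log 2), ∑ p ∈ P.filter (fun p => Nat.log 2 p = j),
        (if p < 2 * n then Real.log p / (p : ℝ) else 0) :=
    (Finset.sum_fiberwise_of_maps_to (fun p hp => mem_image_of_mem _ hp) _).symm
  have hblock : ∀ j ∈ P.image (Nat.log 2), ∑ p ∈ P.filter (fun p => Nat.log 2 p = j),
        Real.log p * (2 * PS (vd p) (A a n)) ≤
      (n : ℝ) ^ 2 * (∑ p ∈ P.filter (fun p => Nat.log 2 p = j),
        (if p < 2 * n then Real.log p / (p : ℝ) else 0) + 128 * e j) := by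
    intro j hj
    rw [mem_image] at hj
    obtain ⟨q, hq, hqj⟩ := hj
    have hq2 := hP q hq
    obtain ⟨W, hWS, hWc, hWin⟩ := hatt (max n ⌈(2 : ℝ) ^ ((j : ℝ) * (1 + δ))⌉₊)
    have hPj : ∀ p ∈ P.filter (fun p => Nat.log 2 p = j),
        p.Prime ∧ 2 ^ j ≤ p ∧ p < 2 ^ (j + 1) := by
      intro p hp
      rw [mem_filter] at hp
      have hpp := (hP p hp.1).1
      refine ⟨hpp, ?_, ?_⟩
      · rw [← hp.2]; exact Nat.pow_log_le_self 2 hpp.pos.ne'
      · rw [← hp.2]; exact Nat.lt_pow_succ_log_self one_lt_two p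
    have hbb := block_bound hSIEVE hAVG hPAIR hCLS hO hn (by rw [hWc]; exact le_max_left _ _)
      hWS hWin (P.filter (fun p => Nat.log 2 p = j)) hPj
    have hm1 : 1 ≤ max n ⌈(2 : ℝ) ^ ((j : ℝ) * (1 + δ))⌉₊ := le_trans (by omega) (le_max_left _ _)
    have hqlt : q < 2 ^ (j + 1) := by rw [← hqj]; exact Nat.lt_pow_succ_log_self one_lt_two q
    have hnj := hnum n N (max n ⌈(2 : ℝ) ^ ((j : ℝ) * (1 + δ))⌉₊) j
      (G S (max n ⌈(2 : ℝ) ^ ((j : ℝ) * (1 + δ))⌉₊)) (G S N) (by omega) hnN hN3 rfl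
      (Nat.cast_nonneg _) (Nat.cast_nonneg _) (hG _ hm1)
      (fun h => by rw [h]; exact_mod_cast hmono hnN)
      (le_trans hkap (by exact_mod_cast (by omega : Q ≤ 2 ^ (j + 1))))
    rw [hWc] at hbb
    refine le_trans hbb ?_
    gcongr
  rw [hfib]
  calc _ ≤ ∑ j ∈ P.image (Nat.log 2), (n : ℝ) ^ 2 * (∑ p ∈ P.filter (fun p => Nat.log 2 p = j),
        (if p < 2 * n then Real.log p / (p : ℝ) else 0) + 128 * e j) := Finset.sum_le_sum hblock
    _ = (n : ℝ) ^ 2 * (∑ p ∈ P, (if p < 2 * n then Real.log p / (p : ℝ) else 0) +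
        128 * ∑ j ∈ P.image (Nat.log 2), e j) := by
        rw [← Finset.mul_sum, Finset.sum_add_distrib, ← hfib2, ← Finset.mul_sum]
    _ ≤ (n : ℝ) ^ 2 * ((Real.log n - Real.log Q + C₂) + 128 * C₁) := by
        gcongr
        · exact hmer n Q hQ hQn P hP
        · exact hes _
    _ = _ := by ring

end Pool.Agent.Work.MP_b29d7f_half_h87
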