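import Pool.Agent.Work.MP_0b7501_nt.LargeSieve

/-!
Elementary large sieve for prime moduli, in the form of a bound for the number of pairs of
elements of a finite set of integers which are congruent modulo `p`.
-/

namespace Pool.Agent.Work.MP_b29d7f_half_h87

open Finset

/-- number of elements of `W` congruent to `c` modulo `p` -/
noncomputable def Zc (W : Finset ℕ) (p c : ℕ) : ℝ := ((W.filter (fun y => y % p = c)).card : ℝ)

/-- the centred class function -/
noncomputable def fc (W : Finset ℕ) (p x : ℕ) : ℝ := p * Zc W p (x % p) - W.card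

/-- number of ordered pairs of elements of `W` congruent modulo `p` (natural numbers) -/
def prsN (W : Finset ℕ) (p : ℕ) : ℕ := ((W ×ˢ W).filter (fun z => z.1 % p = z.2 % p)).card

theorem sum_Zc (W : Finset ℕ) {p : ℕ} (hp : 0 < p) : ∑ c ∈ range p, Zc W p c = W.card := by
  unfold Zc
  rw [Finset.card_eq_sum_card_fiberwise (f := fun y => y % p) (t := range p)
    (fun y _ => Finset.mem_coe.mpr (mem_range.mpr (Nat.mod_lt _ hp)))]
  push_cast
  rfl

theorem sum_Zc_W (W : Finset ℕ) (p : ℕ) : ∑ x ∈ W, Zc W p (x % p) = prsN W p := by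
  unfold Zc prsN
  rw [Finset.card_filter, Finset.sum_product]
  push_cast
  refine Finset.sum_congr rfl fun x _ => ?_
  rw [Finset.card_filter]
  push_cast
  refine Finset.sum_congr rfl fun y _ => ?_
  by_cases h : y % p = x % p
  · rw [if_pos h, if_pos h.symm]
  · rw [if_neg h, if_neg (fun h' => h h'.symm)]

theorem sum_class (W : Finset ℕ) {p : ℕ} (hp : 0 < p) (g : ℕ → ℝ) :
    ∑ x ∈ W, g (x % p) = ∑ c ∈ range p, Zc W p c * g c := by
  rw [← Finset.sum_fiberwise_of_maps_to (g := fun y => y % p) (t := range p)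
    (fun y _ => mem_range.mpr (Nat.mod_lt _ hp))]
  refine Finset.sum_congr rfl fun c _ => ?_
  unfold Zc
  rw [Finset.sum_congr rfl (g := fun _ => g c) (fun x hx => by
    rw [Finset.mem_filter] at hx; rw [hx.2])]
  rw [Finset.sum_const, nsmul_eq_mul]

theorem sum_sq_Zc (W : Finset ℕ) {p : ℕ} (hp : 0 < p) :
    ∑ c ∈ range p, Zc W p c ^ 2 = prsN W p := by
  rw [← sum_Zc_W, sum_class W hp]
  exact Finset.sum_congr rfl fun c _ => sq _

theorem sum_fc_range (W : Finset ℕ) {p : ℕ} (hp : 0 < p) : ∑ c ∈ range p, fc W p c = 0 := by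
  unfold fc
  rw [Finset.sum_sub_distrib, Finset.sum_const, card_range, nsmul_eq_mul]
  have h : ∑ c ∈ range p, (p : ℝ) * Zc W p (c % p) = p * W.card := by
    rw [← sum_Zc W hp, Finset.mul_sum]
    refine Finset.sum_congr rfl fun c hc => ?_
    rw [Nat.mod_eq_of_lt (mem_range.mp hc)]
  rw [h, sub_self]

theorem sum_fc_sq (W : Finset ℕ) {p : ℕ} (hp : 0 < p) :
    ∑ c ∈ range p, fc W p c ^ 2 = p * (p * (prsN W p : ℝ) - (W.card : ℝ) ^ 2) := by
  have h : ∀ c ∈ range p, fc W p c ^ 2 =
      (p : ℝ) ^ 2 * Zc W p c ^ 2 - 2 * p * W.card * Zc W p c + (W.card : ℝ) ^ 2 := by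
    intro c hc
    unfold fc
    rw [Nat.mod_eq_of_lt (mem_range.mp hc)]
    ring
  rw [Finset.sum_congr rfl h, Finset.sum_add_distrib, Finset.sum_sub_distrib, ← Finset.mul_sum,
    ← Finset.mul_sum, sum_sq_Zc W hp, sum_Zc W hp, Finset.sum_const, card_range, nsmul_eq_mul]
  ring

theorem sum_fc_W (W : Finset ℕ) (p : ℕ) :
    ∑ x ∈ W, fc W p x = p * (prsN W p : ℝ) - (W.card : ℝ) ^ 2 := by
  unfold fc
  rw [Finset.sum_sub_distrib, ← Finset.mul_sum, sum_Zc_W, Finset.sum_const, nsmul_eq_mul]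
  ring

theorem term_nonneg (W : Finset ℕ) {p : ℕ} (hp : 0 < p) :
    0 ≤ p * (prsN W p : ℝ) - (W.card : ℝ) ^ 2 := by
  have h := sum_fc_sq W hp
  have h0 : 0 ≤ ∑ c ∈ range p, fc W p c ^ 2 := Finset.sum_nonneg fun c _ => sq_nonneg _
  rw [h] at h0
  exact nonneg_of_mul_nonneg_right h0 (by exact_mod_cast hp)

/-- **large sieve**, natural numbers -/
theorem sieveN (W : Finset ℕ) (G T : ℕ) (hW : ∀ x ∈ W, x ≤ G) (hT : 1 ≤ T) :
    ∑ p ∈ (range (T + 1)).filter Nat.Prime, (p * (prsN W p : ℝ) - (W.card : ℝ) ^ 2) ≤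
      16 * (max G (T ^ 2) : ℕ) * W.card := by
  classical
  obtain ⟨D, w, hND, hw0, hw1, -, heq⟩ :=
    MP_0b7501_nt.exists_weight G (T ^ 2) (Nat.one_le_pow _ _ hT)
  set Wt : ℝ := 16 * (max G (T ^ 2) : ℕ) with hWt
  have hWt0 : 0 ≤ Wt := by positivity
  set P := (range (T + 1)).filter Nat.Prime with hP
  have hPm : ∀ p ∈ P, p.Prime ∧ p ≤ T := by
    intro p hp
    rw [hP, mem_filter, mem_range] at hp
    exact ⟨hp.2, by omega⟩
  have hind : ∀ k c, 1 ≤ k → k ≤ T ^ 2 → c < k →
      ∑ x ∈ range D, w x * (if x % k = c then (1 : ℝ) else 0) = Wt / k := by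
    intro k c h1 h2 h3
    rw [← heq k c h1 h2 h3, Finset.sum_filter]
    refine Finset.sum_congr rfl fun m _ => ?_
    split_ifs <;> simp
  have hexp : ∀ p ∈ P, ∀ x : ℕ, fc W p x =
      ∑ c ∈ range p, fc W p c * (if x % p = c then (1 : ℝ) else 0) := by
    intro p hp x
    have hp0 := (hPm p hp).1.pos
    simp only [mul_ite, mul_one, mul_zero]
    rw [Finset.sum_ite_eq, if_pos (mem_range.mpr (Nat.mod_lt _ hp0))]
    unfold fc
    rw [Nat.mod_mod]
  -- cross terms
  have hcross : ∀ p ∈ P, ∀ q ∈ P, p ≠ q → ∑ x ∈ range D, w x * (fc W p x * fc W q x) = 0 := by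
    intro p hp q hq hne
    have hp0 := (hPm p hp).1.pos
    have hq0 := (hPm q hq).1.pos
    have hcop : Nat.Coprime p q := (Nat.coprime_primes (hPm p hp).1 (hPm q hq).1).mpr hne
    have hpq : p * q ≤ T ^ 2 := by
      rw [sq]; exact Nat.mul_le_mul (hPm p hp).2 (hPm q hq).2
    have h1 : ∀ x ∈ range D, w x * (fc W p x * fc W q x) =
        ∑ c ∈ range p, ∑ c' ∈ range q, fc W p c * fc W q c' *
          (w x * ((if x % p = c then (1 : ℝ) else 0) * (if x % q = c' then (1 : ℝ) else 0))) := by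
      intro x _
      conv_lhs => rw [hexp p hp x, hexp q hq x]
      rw [Finset.sum_mul_sum, Finset.mul_sum]
      refine Finset.sum_congr rfl fun c _ => ?_
      rw [Finset.mul_sum]
      refine Finset.sum_congr rfl fun c' _ => ?_
      ring
    rw [Finset.sum_congr rfl h1, Finset.sum_comm]
    have h2 : ∀ c ∈ range p, ∑ x ∈ range D, ∑ c' ∈ range q, fc W p c * fc W q c' *
          (w x * ((if x % p = c then (1 : ℝ) else 0) * (if x % q = c' then (1 : ℝ) else 0))) =
        ∑ c' ∈ range q, fc W p c * fc W q c' * (Wt / (p * q : ℕ)) := by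
      intro c hc
      rw [Finset.sum_comm]
      refine Finset.sum_congr rfl fun c' hc' => ?_
      rw [← Finset.mul_sum]
      congr 1
      set z := Nat.chineseRemainder hcop c c' with hz
      have hzlt : (z : ℕ) < p * q := Nat.chineseRemainder_lt_mul hcop c c' hp0.ne' hq0.ne'
      rw [← hind (p * q) z (Nat.mul_pos hp0 hq0) hpq hzlt]
      refine Finset.sum_congr rfl fun x _ => ?_
      congr 1
      have hcl := mem_range.mp hc
      have hcl' := mem_range.mp hc'
      have hzc := z.2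
      have hiff : x % (p * q) = z ↔ (x % p = c ∧ x % q = c') := by
        constructor
        · intro h
          constructor
          · have h3 : x % p = (x % (p * q)) % p := (Nat.mod_mod_of_dvd x (Dvd.intro _ rfl)).symm
            rw [h3, h]
            have := hzc.1
            unfold Nat.ModEq at this
            rw [this, Nat.mod_eq_of_lt hcl]
          · have h3 : x % q = (x % (p * q)) % q :=
              (Nat.mod_mod_of_dvd x (Dvd.intro_left _ rfl)).symm
            rw [h3, h]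
            have := hzc.2
            unfold Nat.ModEq at this
            rw [this, Nat.mod_eq_of_lt hcl']
        · rintro ⟨h3, h4⟩
          have h5 : x ≡ z [MOD p] := by
            refine Nat.ModEq.trans ?_ hzc.1.symm
            unfold Nat.ModEq
            rw [h3, Nat.mod_eq_of_lt hcl]
          have h6 : x ≡ z [MOD q] := by
            refine Nat.ModEq.trans ?_ hzc.2.symm
            unfold Nat.ModEq
            rw [h4, Nat.mod_eq_of_lt hcl']
          have h7 : x ≡ z [MOD p * q] := (Nat.modEq_and_modEq_iff_modEq_mul hcop).mp ⟨h5, h6⟩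
          unfold Nat.ModEq at h7
          rw [h7, Nat.mod_eq_of_lt hzlt]
      by_cases h : x % (p * q) = z
      · rw [if_pos h, if_pos (hiff.mp h).1, if_pos (hiff.mp h).2, mul_one]
      · rw [if_neg h]
        by_cases h3 : x % p = c
        · rw [if_neg (fun h4 => h (hiff.mpr ⟨h3, h4⟩)), mul_zero]
        · rw [if_neg h3, zero_mul]
    rw [Finset.sum_congr rfl h2]
    have h3 : ∀ c ∈ range p, ∑ c' ∈ range q, fc W p c * fc W q c' * (Wt / (p * q : ℕ)) = 0 := by
      intro c _
      rw [← Finset.sum_mul, ← Finset.mul_sum, sum_fc_range W hq0, mul_zero, zero_mul]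
    rw [Finset.sum_eq_zero h3]
  -- diagonal terms
  have hdiag : ∀ p ∈ P, ∑ x ∈ range D, w x * (fc W p x * fc W p x) =
      Wt * (p * (prsN W p : ℝ) - (W.card : ℝ) ^ 2) := by
    intro p hp
    have hp0 := (hPm p hp).1.pos
    have hpT : p ≤ T ^ 2 := le_trans (hPm p hp).2 (Nat.le_self_pow two_ne_zero T)
    have h1 : ∀ x ∈ range D, w x * (fc W p x * fc W p x) =
        ∑ c ∈ range p, fc W p c ^ 2 * (w x * (if x % p = c then (1 : ℝ) else 0)) := by
      intro x _
      have h2 : fc W p x * fc W p x =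
          ∑ c ∈ range p, fc W p c ^ 2 * (if x % p = c then (1 : ℝ) else 0) := by
        simp only [mul_ite, mul_one, mul_zero]
        rw [Finset.sum_ite_eq, if_pos (mem_range.mpr (Nat.mod_lt _ hp0))]
        unfold fc
        rw [Nat.mod_mod]
        ring
      rw [h2, Finset.mul_sum]
      refine Finset.sum_congr rfl fun c _ => ?_
      ring
    rw [Finset.sum_congr rfl h1, Finset.sum_comm]
    have h3 : ∀ c ∈ range p, ∑ x ∈ range D, fc W p c ^ 2 *
        (w x * (if x % p = c then (1 : ℝ) else 0)) = fc W p c ^ 2 * (Wt / p) := by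
      intro c hc
      rw [← Finset.mul_sum, hind p c hp0 hpT (mem_range.mp hc)]
    rw [Finset.sum_congr rfl h3, ← Finset.sum_mul, sum_fc_sq W hp0]
    have hpR : (p : ℝ) ≠ 0 := by exact_mod_cast hp0.ne'
    field_simp
  -- the total
  set V : ℝ := ∑ p ∈ P, (p * (prsN W p : ℝ) - (W.card : ℝ) ^ 2) with hV
  have hV0 : 0 ≤ V := Finset.sum_nonneg fun p hp => term_nonneg W (hPm p hp).1.pos
  have hVF : V = ∑ x ∈ W, ∑ p ∈ P, fc W p x := by
    rw [Finset.sum_comm, hV]
    exact Finset.sum_congr rfl fun p _ => (sum_fc_W W p).symm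
  have hsec : ∑ x ∈ range D, w x * (∑ p ∈ P, fc W p x) ^ 2 = Wt * V := by
    have h1 : ∀ x ∈ range D, w x * (∑ p ∈ P, fc W p x) ^ 2 =
        ∑ p ∈ P, ∑ q ∈ P, w x * (fc W p x * fc W q x) := by
      intro x _
      rw [sq, Finset.sum_mul_sum, Finset.mul_sum]
      exact Finset.sum_congr rfl fun p _ => by rw [Finset.mul_sum]
    rw [Finset.sum_congr rfl h1, Finset.sum_comm, hV, Finset.mul_sum]
    refine Finset.sum_congr rfl fun p hp => ?_
    rw [Finset.sum_comm, ← hdiag p hp]
    refine Finset.sum_eq_single_of_mem p hp fun q hq hne => hcross p hp q hq (Ne.symm hne)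
  have hsub : W ⊆ range D := by
    intro x hx
    rw [mem_range]
    exact lt_of_le_of_lt (hW x hx) hND
  have hCS : V ^ 2 ≤ W.card * (Wt * V) := by
    rw [← hsec, hVF]
    refine le_trans (sq_sum_le_card_mul_sum_sq) ?_
    refine mul_le_mul_of_nonneg_left ?_ (Nat.cast_nonneg _)
    calc ∑ x ∈ W, (∑ p ∈ P, fc W p x) ^ 2 ≤ ∑ x ∈ W, w x * (∑ p ∈ P, fc W p x) ^ 2 := by
          refine Finset.sum_le_sum fun x hx => ?_
          have := hw1 x (hW x hx)
          nlinarith [sq_nonneg (∑ p ∈ P, fc W p x)]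
      _ ≤ _ := Finset.sum_le_sum_of_subset_of_nonneg hsub fun x _ _ =>
          mul_nonneg (hw0 x) (sq_nonneg _)
  rcases hV0.eq_or_lt with h0 | hpos
  · rw [← h0]; positivity
  · have : V * V ≤ (Wt * W.card) * V := by nlinarith
    exact le_of_mul_le_mul_right this hpos

/-- number of ordered pairs of elements of `W` congruent modulo `p` -/
def prs (p : ℕ) (W : Finset ℤ) : ℕ := ((W ×ˢ W).filter (fun z => (p : ℤ) ∣ z.1 - z.2)).card

theorem mod_eq_iff (p a b : ℕ) : a % p = b % p ↔ (p : ℤ) ∣ (a : ℤ) - b := by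
  have h : a % p = b % p ↔ a ≡ b [MOD p] := Iff.rfl
  rw [h, ← Int.natCast_modEq_iff, Int.modEq_iff_dvd, ← dvd_neg, neg_sub]

/-- transport to natural numbers -/
theorem prs_shift (W : Finset ℤ) (x0 : ℤ) (h0 : ∀ x ∈ W, x0 ≤ x) (p : ℕ) :
    prs p W = prsN (W.image fun x => (x - x0).toNat) p := by
  classical
  have hinj : Set.InjOn (fun x : ℤ => (x - x0).toNat) (W : Set ℤ) := by
    intro x hx y hy h
    have hx' := h0 x (Finset.mem_coe.mp hx)
    have hy' := h0 y (Finset.mem_coe.mp hy)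
    simp only at h
    omega
  have key : ∀ x ∈ W, ∀ y ∈ W,
      ((x - x0).toNat % p = (y - x0).toNat % p ↔ (p : ℤ) ∣ x - y) := by
    intro x hx y hy
    have hx' := h0 x hx
    have hy' := h0 y hy
    have h1 : (((x - x0).toNat : ℕ) : ℤ) = x - x0 := Int.toNat_of_nonneg (by omega)
    have h2 : (((y - x0).toNat : ℕ) : ℤ) = y - x0 := Int.toNat_of_nonneg (by omega)
    rw [mod_eq_iff, h1, h2, sub_sub_sub_cancel_right]
  unfold prs prsN
  refine Finset.card_bij (fun z _ => ((z.1 - x0).toNat, (z.2 - x0).toNat)) ?_ ?_ ?_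
  · rintro ⟨x, y⟩ hz
    simp only [mem_filter, mem_product] at hz ⊢
    exact ⟨⟨mem_image_of_mem _ hz.1.1, mem_image_of_mem _ hz.1.2⟩,
      (key x hz.1.1 y hz.1.2).mpr hz.2⟩
  · rintro ⟨x, y⟩ hz ⟨x', y'⟩ hz' h
    simp only [mem_filter, mem_product] at hz hz'
    simp only [Prod.mk.injEq] at h
    exact Prod.ext (hinj hz.1.1 hz'.1.1 h.1) (hinj hz.1.2 hz'.1.2 h.2)
  · rintro ⟨a, b⟩ hab
    simp only [mem_filter, mem_product, mem_image] at hab
    obtain ⟨⟨⟨x, hx, rfl⟩, ⟨y, hy, rfl⟩⟩, h⟩ := hab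
    refine ⟨(x, y), ?_, rfl⟩
    simp only [mem_filter, mem_product]
    exact ⟨⟨hx, hy⟩, (key x hx y hy).mp h⟩

theorem card_shift (W : Finset ℤ) (x0 : ℤ) (h0 : ∀ x ∈ W, x0 ≤ x) :
    (W.image fun x => (x - x0).toNat).card = W.card := by
  refine Finset.card_image_of_injOn ?_
  intro x hx y hy h
  have hx' := h0 x (Finset.mem_coe.mp hx)
  have hy' := h0 y (Finset.mem_coe.mp hy)
  simp only at h
  omega

/-- **large sieve**: for a set `W` of integers contained in an interval of `G` integers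
`∑_{p ≤ T} (p · #{(x, y) ∈ W² : p ∣ x - y} - |W|²) ≤ 16 max(G, T²) |W|` -/
theorem sieve (W : Finset ℤ) (x0 : ℤ) (G T : ℕ) (hG : ∀ x ∈ W, x0 ≤ x ∧ x < x0 + G)
    (hT : 1 ≤ T) :
    ∑ p ∈ (range (T + 1)).filter Nat.Prime, (p * (prs p W : ℝ) - (W.card : ℝ) ^ 2) ≤
      16 * (max G (T ^ 2) : ℕ) * W.card := by
  classical
  have h := sieveN (W.image fun x => (x - x0).toNat) G T (by
    intro a ha
    rw [mem_image] at ha
    obtain ⟨x, hx, rfl⟩ := ha
    have := hG x hx
    omega) hT
  rw [card_shift W x0 fun x hx => (hG x hx).1] at h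
  refine le_trans (le_of_eq ?_) h
  exact Finset.sum_congr rfl fun p _ => by rw [prs_shift W x0 fun x hx => (hG x hx).1]

/-- if `W` meets at most `r` classes modulo `p` then `|W|² ≤ r · prs p W` -/
theorem sq_card_le_mul_prs (W : Finset ℤ) (p r : ℕ)
    (hr : (W.image fun x => x % (p : ℤ)).card ≤ r) :
    (W.card : ℝ) ^ 2 ≤ r * prs p W := by
  classical
  set I := W.image fun x => x % (p : ℤ) with hI
  have h1 : (W.card : ℝ) = ∑ c ∈ I, ((W.filter fun x => x % (p : ℤ) = c).card : ℝ) := by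
    rw [Finset.card_eq_sum_card_fiberwise (f := fun x => x % (p : ℤ)) (t := I)
      (fun x hx => Finset.mem_coe.mpr (mem_image_of_mem _ (Finset.mem_coe.mp hx)))]
    push_cast
    rfl
  have h2 : (prs p W : ℝ) = ∑ c ∈ I, ((W.filter fun x => x % (p : ℤ) = c).card : ℝ) ^ 2 := by
    have h3 : (prs p W : ℝ) =
        ∑ x ∈ W, ((W.filter fun y => y % (p : ℤ) = x % (p : ℤ)).card : ℝ) := by
      unfold prs
      rw [Finset.card_filter, Finset.sum_product]
      push_cast
      refine Finset.sum_congr rfl fun x _ => ?_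
      rw [Finset.card_filter]
      push_cast
      refine Finset.sum_congr rfl fun y _ => ?_
      have : (p : ℤ) ∣ x - y ↔ y % (p : ℤ) = x % (p : ℤ) := by
        rw [← Int.modEq_iff_dvd]
        exact Iff.rfl
      by_cases h : y % (p : ℤ) = x % (p : ℤ)
      · rw [if_pos h, if_pos (this.mpr h)]
      · rw [if_neg h, if_neg (fun h' => h (this.mp h'))]
    rw [h3, ← Finset.sum_fiberwise_of_maps_to (g := fun x => x % (p : ℤ)) (t := I)
      (fun x hx => mem_image_of_mem _ hx)]
    refine Finset.sum_congr rfl fun c _ => ?_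
    rw [Finset.sum_congr rfl (g := fun _ => ((W.filter fun y => y % (p : ℤ) = c).card : ℝ))
      (fun x hx => by rw [mem_filter] at hx; rw [hx.2]), Finset.sum_const, nsmul_eq_mul, sq]
  rw [h1, h2]
  refine le_trans sq_sum_le_card_mul_sum_sq ?_
  exact mul_le_mul_of_nonneg_right (by exact_mod_cast hr)
    (Finset.sum_nonneg fun c _ => sq_nonneg _)

/-- each term of the sieve inequality is nonnegative -/
theorem sq_card_le (W : Finset ℤ) {p : ℕ} (hp : 0 < p) : (W.card : ℝ) ^ 2 ≤ p * prs p W := by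
  classical
  refine sq_card_le_mul_prs W p p ?_
  have h : (W.image fun x => x % (p : ℤ)) ⊆ (range p).image (fun c : ℕ => (c : ℤ)) := by
    intro c hc
    rw [mem_image] at hc
    obtain ⟨x, _, rfl⟩ := hc
    have h0 : (0 : ℤ) < p := by exact_mod_cast hp
    rw [mem_image]
    refine ⟨(x % (p : ℤ)).toNat, ?_, ?_⟩
    · rw [mem_range]
      have := Int.emod_lt_of_pos x h0
      have := Int.emod_nonneg x h0.ne'
      omega
    · exact Int.toNat_of_nonneg (Int.emod_nonneg x h0.ne')
  refine le_trans (card_le_card h) (le_trans card_image_le ?_)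
  rw [card_range]

end Pool.Agent.Work.MP_b29d7f_half_h87
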